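import Pool.Agent.helper43.DHB.SpecB

/-!
# Project d2: (MP_5823cb_al), module bPRB (helper74): finite probability
-/

set_option autoImplicit false

open Filter Topology MeasureTheory
open scoped commutatorElement

namespace Pool.Agent.helper90.DH

open Pool.Agent.helper64.D2

theorem bPRB_mono (Ω : Type) [Fintype Ω] (A B : Set Ω) (h : A ⊆ B) : bpr A ≤ bpr B := by
  unfold bpr
  apply div_le_div_of_nonneg_right _ (by positivity)
  exact_mod_cast Set.ncard_le_ncard h (Set.toFinite B)

theorem bPRB_union (Ω : Type) [Fintype Ω] (A B : Set Ω) : bpr (A ∪ B) ≤ bpr A + bpr B := by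
  unfold bpr
  rw [← add_div]
  apply div_le_div_of_nonneg_right _ (by positivity)
  exact_mod_cast Set.ncard_union_le A B

theorem bPRB_empty (Ω : Type) [Fintype Ω] : bpr (∅ : Set Ω) = 0 := by
  unfold bpr
  simp

theorem bPRB : bPRB_stmt := by
  refine ⟨bPRB_mono, ?_, bPRB_empty, ?_, bPRB_union, ?_, ?_⟩
  · intro Ω _ A
    have h1 : Set.ncard A ≤ Fintype.card Ω := by
      have h2 := Set.ncard_le_ncard (Set.subset_univ A) (Set.toFinite _)
      rwa [Set.ncard_univ, Nat.card_eq_fintype_card] at h2
    unfold bpr
    exact ⟨by positivity, div_le_one_of_le₀ (by exact_mod_cast h1) (by positivity)⟩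
  · intro Ω J _ S A
    classical
    induction S using Finset.induction_on with
    | empty => simp [bPRB_empty]
    | insert j S hj ih =>
      rw [Finset.sum_insert hj]
      have h1 : (⋃ i ∈ insert j S, A i) = A j ∪ ⋃ i ∈ S, A i := by
        ext x
        simp
      rw [h1]
      exact (bPRB_union Ω _ _).trans (add_le_add le_rfl ih)
  · intro Ω _ _ A hA
    by_contra hcon
    push Not at hcon
    have h1 : A = Set.univ := Set.eq_univ_of_forall hcon
    rw [h1] at hA
    unfold bpr at hA
    rw [Set.ncard_univ, Nat.card_eq_fintype_card, div_self (by exact_mod_cast Fintype.card_ne_zero)] at hA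
    exact lt_irrefl _ hA
  · intro Ω Ω' _ _ e A
    unfold bpr
    have h1 : Set.ncard (e ⁻¹' A) = Set.ncard A := by
      rw [← Set.ncard_image_of_injective (e ⁻¹' A) e.injective, Set.image_preimage_eq A e.surjective]
    rw [h1, Fintype.card_congr e]

end Pool.Agent.helper90.DH
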